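import Pool.Agent.Helper72.MK.Goals

/-! Packet MK-ARC: continuity of the area of sections. -/

open MeasureTheory Set Filter Topology
open scoped ENNReal

noncomputable section

namespace Pool.Agent.Helper63.MK

open Pool.Agent.Helper72.MK Pool.Agent.Helper47.AQ

/-- The open and the closed unit sublevel set of a positively homogeneous function have the same
volume. -/
theorem vol_lt_eq_le (h : (Fin 2 → ℝ) → ℝ) (hh : ∀ t : ℝ, 0 < t → ∀ x, h (t • x) = t * h x) :
    volume {y | h y < 1} = volume {y | h y ≤ 1} := by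
  refine le_antisymm (measure_mono fun p hp => (show h p < 1 from hp).le) ?_
  have h1 : ∀ t : ℝ, 0 < t → t < 1 →
      ENNReal.ofReal (t ^ 2) * volume {p | h p ≤ 1} ≤ volume {p | h p < 1} := by
    intro t ht ht1
    have h2 := vol_scale univ (fun t _ x => by simp) h hh t ht
    rw [univ_inter, univ_inter, Fintype.card_fin] at h2
    rw [← h2]
    exact measure_mono fun p hp => lt_of_le_of_lt hp ht1
  have h3 : Tendsto (fun t : ℝ => ENNReal.ofReal (t ^ 2) * volume {p | h p ≤ 1})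
      (𝓝[<] 1) (𝓝 (ENNReal.ofReal ((1 : ℝ) ^ 2) * volume {p | h p ≤ 1})) := by
    refine ENNReal.Tendsto.mul_const ?_ (Or.inl (by simp))
    refine (ENNReal.tendsto_ofReal ?_)
    exact ((continuous_pow 2).tendsto 1).mono_left nhdsWithin_le_nhds
  rw [one_pow, ENNReal.ofReal_one, one_mul] at h3
  refine le_of_tendsto h3 ?_
  filter_upwards [Ioo_mem_nhdsLT (show (0 : ℝ) < 1 from one_pos)] with t ht
  exact h1 t ht.1 ht.2

theorem arc (hDCV : DCVStmt) : ARCStmt := by
  intro K hK q0 hq0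
  set s : Set ((Fin 3 → ℝ) × (Fin 3 → ℝ)) := {q | LinearIndependent ℝ ![q.1, q.2]} with hs
  set f : ((Fin 3 → ℝ) × (Fin 3 → ℝ)) → (Fin 2 → ℝ) → ℝ :=
    fun q y => wd K (y 0 • q.1 + y 1 • q.2) with hfdef
  have hf : Continuous fun p : ((Fin 3 → ℝ) × (Fin 3 → ℝ)) × (Fin 2 → ℝ) => f p.1 p.2 := by
    refine hK.wd_continuous.comp ?_
    fun_prop
  have hfq : ∀ q, Continuous (f q) := fun q => hf.comp (by fun_prop : Continuous fun y => (q, y))
  have hfs : ∀ q, ∀ t : ℝ, 0 < t → ∀ y, f q (t • y) = t * f q y := by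
    intro q t ht y
    simp only [hfdef, Pi.smul_apply, smul_eq_mul]
    rw [← hK.wd_smul t ht, smul_add, smul_smul, smul_smul]
  have hpos : ∀ q ∈ s, ∀ y : Fin 2 → ℝ, y ≠ 0 → 0 < f q y := by
    intro q hq y hy
    obtain ⟨ε, hε, h2⟩ := hK.le_wd
    refine lt_of_lt_of_le ?_ (h2 _)
    have h3 : y 0 • q.1 + y 1 • q.2 ≠ 0 := by
      intro h0
      have h4 := (LinearIndependent.pair_iff.1 hq) (y 0) (y 1) h0
      exact hy (by funext i; fin_cases i <;> simp [h4.1, h4.2])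
    obtain ⟨i, hi⟩ : ∃ i, (y 0 • q.1 + y 1 • q.2) i ≠ 0 := by
      by_contra hcon
      push Not at hcon
      exact h3 (funext hcon)
    exact mul_pos hε (Finset.sum_pos' (fun _ _ => abs_nonneg _)
      ⟨i, Finset.mem_univ _, abs_pos.2 hi⟩)
  -- a uniform lower bound near `q0`
  obtain ⟨ε, hε, hev⟩ : ∃ ε : ℝ, 0 < ε ∧ ∀ᶠ q in 𝓝 q0, ∀ y : Fin 2 → ℝ, ‖y‖ = 1 → ε < f q y := by
    have hcS : IsCompact (Metric.sphere (0 : Fin 2 → ℝ) 1) := isCompact_sphere 0 1
    have hneS : (Metric.sphere (0 : Fin 2 → ℝ) 1).Nonempty :=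
      NormedSpace.sphere_nonempty.2 zero_le_one
    obtain ⟨y0, hy0, hmin⟩ := hcS.exists_isMinOn hneS (hfq q0).continuousOn
    have hy0' : y0 ≠ 0 := by
      intro h
      rw [h] at hy0
      simp at hy0
    have hm := hpos q0 hq0 y0 hy0'
    refine ⟨f q0 y0 / 2, by positivity, ?_⟩
    have := hcS.eventually_forall_of_forall_eventually (x₀ := q0)
      (P := fun q y => f q0 y0 / 2 < f q y) (fun y hy => by
        have h5 : f q0 y0 / 2 < f q0 y := lt_of_lt_of_le (by linarith) (hmin hy)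
        exact Tendsto.eventually_const_lt h5 (hf.continuousAt (x := (q0, y))))
    filter_upwards [this] with q hq y hy
    exact hq y (by simpa using hy)
  -- the sublevel sets lie in a fixed ball
  set A : Set (Fin 2 → ℝ) := Metric.closedBall 0 (1 / ε) with hA
  have hball : ∀ q, (∀ y : Fin 2 → ℝ, ‖y‖ = 1 → ε < f q y) → {y | f q y ≤ 1} ⊆ A := by
    intro q hq y hy
    rcases eq_or_ne y 0 with rfl | hy0
    · simp only [hA, Metric.mem_closedBall, dist_self]
      positivity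
    have hn : 0 < ‖y‖ := norm_pos_iff.2 hy0
    have h1 := hq (‖y‖⁻¹ • y) (by rw [norm_smul, norm_inv, norm_norm, inv_mul_cancel₀ hn.ne'])
    rw [hfs q _ (inv_pos.2 hn)] at h1
    have h2 : f q y ≤ 1 := hy
    rw [hA, mem_closedBall_zero_iff, le_div_iff₀ hε]
    have h3 : ‖y‖⁻¹ * f q y ≤ ‖y‖⁻¹ * 1 := mul_le_mul_of_nonneg_left h2 (inv_nonneg.2 hn.le)
    have h4 : ε < ‖y‖⁻¹ := by linarith
    calc ‖y‖ * ε ≤ ‖y‖ * ‖y‖⁻¹ := mul_le_mul_of_nonneg_left h4.le hn.le
      _ = 1 := mul_inv_cancel₀ hn.ne'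
  have hAr : ∀ q, (∀ y : Fin 2 → ℝ, ‖y‖ = 1 → ε < f q y) →
      (volume (A ∩ {y | 0 < 1 - f q y})).toReal = Ar (dpol K) q.1 q.2 := by
    intro q hq
    have h1 : A ∩ {y | 0 < 1 - f q y} = {y | f q y < 1} := by
      ext y
      simp only [mem_inter_iff, mem_ofPred_eq, sub_pos]
      exact ⟨fun h => h.2, fun h => ⟨hball q hq h.le, h⟩⟩
    have h2 : {y : Fin 2 → ℝ | y 0 • q.1 + y 1 • q.2 ∈ dpol K} = {y | f q y ≤ 1} := by
      rw [hK.dpol_eq]
      rfl
    rw [h1, vol_lt_eq_le (f q) (hfs q), ← h2]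
    rfl
  have hev0 : ∀ y : Fin 2 → ℝ, ‖y‖ = 1 → ε < f q0 y := hev.self_of_nhds
  have hAfin : volume A ≠ ⊤ := (isCompact_closedBall 0 _).measure_lt_top.ne
  have hnull : volume (A ∩ {y | 1 - f q0 y = 0}) = 0 := by
    have h1 : A ∩ {y | 1 - f q0 y = 0} ⊆ {y | f q0 y ≤ 1} \ {y | f q0 y < 1} := by
      rintro y ⟨-, hy⟩
      have hy' : 1 - f q0 y = 0 := hy
      refine ⟨?_, ?_⟩
      · show f q0 y ≤ 1
        linarith
      · show ¬ f q0 y < 1
        linarith
    refine measure_mono_null h1 ?_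
    have hsub : {y | f q0 y < 1} ⊆ {y | f q0 y ≤ 1} := fun y hy => (show f q0 y < 1 from hy).le
    have hfin : volume {y | f q0 y < 1} ≠ ⊤ := by
      rw [vol_lt_eq_le (f q0) (hfs q0)]
      exact ((measure_mono (hball q0 hev0)).trans_lt hAfin.lt_top).ne
    rw [measure_sdiff hsub (isOpen_lt (hfq q0) continuous_const).measurableSet.nullMeasurableSet
      hfin, vol_lt_eq_le (f q0) (hfs q0), tsub_self]
  have hlim := hDCV ((Fin 3 → ℝ) × (Fin 3 → ℝ)) (𝓝[s] q0) 2 A (fun q y => 1 - f q y)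
    (fun y => 1 - f q0 y) Metric.isClosed_closedBall.measurableSet hAfin
    (fun q => (continuous_const.sub (hfq q)).measurable)
    (continuous_const.sub (hfq q0)).measurable
    (fun y _ => by
      have h1 : Continuous fun q => 1 - f q y :=
        continuous_const.sub (hf.comp (by fun_prop : Continuous fun q => (q, y)))
      exact (h1.tendsto q0).mono_left nhdsWithin_le_nhds) hnull
  show Tendsto (fun q : (Fin 3 → ℝ) × (Fin 3 → ℝ) => Ar (dpol K) q.1 q.2) (𝓝[s] q0)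
    (𝓝 (Ar (dpol K) q0.1 q0.2))
  rw [hAr q0 hev0] at hlim
  refine hlim.congr' ?_
  filter_upwards [nhdsWithin_le_nhds hev] with q hq
  exact hAr q hq

end Pool.Agent.Helper63.MK
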