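import Pool.Agent.Helper72.MK.GoalsT

/-! Packet MK-CONE: the volume of a cone in `ℝ³`. -/

open MeasureTheory Set Filter Topology
open scoped ENNReal Pointwise

noncomputable section

namespace Pool.Agent.Helper63.MK

open Pool.Agent.Helper72.MK

/-- `∫_0^1 (1-t)² dt = 1/3` as a lower integral. -/
theorem lint_third : ∫⁻ t in Ioo (0 : ℝ) 1, ENNReal.ofReal ((1 - t) ^ 2) = ENNReal.ofReal (1 / 3) := by
  have hint : IntegrableOn (fun t : ℝ => (1 - t) ^ 2) (Ioo 0 1) := by
    have : Continuous fun t : ℝ => (1 - t) ^ 2 := by fun_prop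
    exact (this.integrableOn_Icc (a := 0) (b := 1)).mono_set Ioo_subset_Icc_self
  rw [← ofReal_integral_eq_lintegral_ofReal hint (Eventually.of_forall fun t => by positivity)]
  congr 1
  rw [← integral_Ioc_eq_integral_Ioo, ← intervalIntegral.integral_of_le zero_le_one]
  have h : ∀ t : ℝ, (1 - t) ^ 2 = 1 - 2 * t + t ^ 2 := fun t => by ring
  simp_rw [h]
  rw [intervalIntegral.integral_add, intervalIntegral.integral_sub]
  · rw [intervalIntegral.integral_const_mul, integral_id, integral_pow]
    simp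
    norm_num
  · exact (continuous_const).intervalIntegrable _ _
  · exact (by fun_prop : Continuous fun t : ℝ => 2 * t).intervalIntegrable _ _
  · exact (by fun_prop : Continuous fun t : ℝ => 1 - 2 * t).intervalIntegrable _ _
  · exact (by fun_prop : Continuous fun t : ℝ => t ^ 2).intervalIntegrable _ _

theorem cone : CONEStmt := by
  intro i H hH c
  rcases eq_or_ne (c i) 0 with hc | hc
  · simp [hc]
  set S : Set (Fin 3 → ℝ) := {x : Fin 3 → ℝ | ∃ y ∈ H, ∃ t : ℝ, 0 < t ∧ t < 1 ∧
      x = (1 - t) • (i.insertNth (0 : ℝ) y : Fin 3 → ℝ) + t • c} with hS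
  set e := MeasurableEquiv.piFinSuccAbove (fun _ : Fin 3 => ℝ) i with he
  have hmp := (volume_preserving_piFinSuccAbove (fun _ : Fin 3 => ℝ) i)
  -- description of the set
  set c' : Fin 2 → ℝ := i.removeNth c with hc'
  set S' : Set (ℝ × (Fin 2 → ℝ)) := {p | 0 < p.1 / c i ∧ p.1 / c i < 1 ∧
    (1 - p.1 / c i)⁻¹ • (p.2 - (p.1 / c i) • c') ∈ H} with hS'
  have hSm : MeasurableSet S' := by
    have h1 : Measurable fun p : ℝ × (Fin 2 → ℝ) => p.1 / c i := by fun_prop
    have h2 : Measurable fun p : ℝ × (Fin 2 → ℝ) =>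
        (1 - p.1 / c i)⁻¹ • (p.2 - (p.1 / c i) • c') := by fun_prop
    exact (measurableSet_lt measurable_const h1).inter
      ((measurableSet_lt h1 measurable_const).inter (h2 hH))
  have hsub : e ⁻¹' S' ⊆ S := by
    intro x hx
    obtain ⟨h0, h1, h2⟩ := hx
    have hx1 : (e x).1 = x i := rfl
    have hx2 : (e x).2 = i.removeNth x := rfl
    rw [hx1] at h0 h1 h2
    rw [hx2] at h2
    refine ⟨_, h2, x i / c i, h0, h1, ?_⟩
    have hne : (1 - x i / c i) ≠ 0 := by linarith
    funext j
    rcases Fin.eq_self_or_eq_succAbove i j with rfl | ⟨k, rfl⟩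
    · simp only [Pi.add_apply, Pi.smul_apply, Fin.insertNth_apply_same, smul_eq_mul, mul_zero,
        zero_add]
      field_simp
    · simp only [Pi.add_apply, Pi.smul_apply, Fin.insertNth_apply_succAbove, smul_eq_mul,
        Pi.sub_apply, hc', Fin.removeNth]
      rw [mul_inv_cancel_left₀ hne]
      ring
  have hvol : volume (e ⁻¹' S') = volume S' := hmp.measure_preimage_equiv S'
  refine le_trans ?_ (measure_mono hsub)
  rw [hvol]
  have hprod : (volume : Measure (ℝ × (Fin 2 → ℝ))) = (volume : Measure ℝ).prod volume := rfl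
  rw [hprod, Measure.prod_apply hSm]
  -- change of variables
  have hmeas : Measurable fun s : ℝ => volume (Prod.mk s ⁻¹' S') :=
    measurable_measure_prodMk_left hSm
  have hcv : ∫⁻ s, volume (Prod.mk s ⁻¹' S') =
      ENNReal.ofReal |c i| * ∫⁻ t, volume (Prod.mk (c i * t) ⁻¹' S') := by
    conv_lhs => rw [← Real.smul_map_volume_mul_left hc]
    rw [lintegral_smul_measure, lintegral_map hmeas (by fun_prop), smul_eq_mul]
  rw [hcv]
  have hslice : ∀ t ∈ Ioo (0 : ℝ) 1, volume (Prod.mk (c i * t) ⁻¹' S') =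
      ENNReal.ofReal ((1 - t) ^ 2) * volume H := by
    intro t ht
    have hne : (1 - t) ≠ 0 := by linarith [ht.2]
    have hdiv : c i * t / c i = t := by field_simp
    have hset : Prod.mk (c i * t) ⁻¹' S' = (fun y => y - t • c') ⁻¹' ((1 - t) • H) := by
      ext y
      simp only [hS', mem_preimage, mem_ofPred_eq, hdiv]
      constructor
      · rintro ⟨-, -, h⟩
        exact ⟨_, h, smul_inv_smul₀ hne _⟩
      · rintro ⟨z, hz, hzy⟩
        refine ⟨ht.1, ht.2, ?_⟩
        simp only at hzy
        rw [← hzy, inv_smul_smul₀ hne]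
        exact hz
    rw [hset]
    have h1 : volume ((fun y : Fin 2 → ℝ => y - t • c') ⁻¹' ((1 - t) • H)) =
        volume ((1 - t) • H) := by
      simp_rw [sub_eq_add_neg]
      exact measure_preimage_add_right _ _ _
    rw [h1, Measure.addHaar_smul]
    congr 2
    rw [Module.finrank_pi, Fintype.card_fin, abs_of_nonneg (by positivity)]
  calc ENNReal.ofReal (|c i| / 3) * volume H
      = ENNReal.ofReal |c i| * (ENNReal.ofReal (1 / 3) * volume H) := by
        rw [← mul_assoc, ← ENNReal.ofReal_mul (abs_nonneg _)]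
        congr 2
        ring
    _ = ENNReal.ofReal |c i| * ∫⁻ t in Ioo (0 : ℝ) 1, ENNReal.ofReal ((1 - t) ^ 2) * volume H := by
        congr 1
        rw [lintegral_mul_const _ (by fun_prop), lint_third]
    _ = ENNReal.ofReal |c i| * ∫⁻ t in Ioo (0 : ℝ) 1, volume (Prod.mk (c i * t) ⁻¹' S') := by
        congr 1
        exact setLIntegral_congr_fun measurableSet_Ioo (fun t ht => (hslice t ht).symm)
    _ ≤ _ := by
        gcongr
        exact Measure.restrict_le_self

end Pool.Agent.Helper63.MK
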